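import Pool.Agent.W342.EG.D6

/-! Part D: the statement `S_D` -/

set_option autoImplicit false

open Matrix Filter Topology
open scoped Matrix.Norms.Frobenius

namespace Pool.Agent.W342.EG

open Pool.Agent.W544.EG

variable {N : ℕ}

theorem mem_com_of_list (G : Subgroup (unitaryGroup (Fin N) ℂ))
    (l : List (unitaryGroup (Fin N) ℂ × unitaryGroup (Fin N) ℂ))
    (hl : ∀ q ∈ l, q.1 ∈ G ∧ q.2 ∈ G) :
    (l.map fun q => q.1 * q.2 * q.1⁻¹ * q.2⁻¹).prod ∈
      (⁅G, G⁆ : Subgroup (unitaryGroup (Fin N) ℂ)) := by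
  refine Subgroup.list_prod_mem _ ?_
  intro x hx
  obtain ⟨q, hq, rfl⟩ := List.mem_map.1 hx
  have := Subgroup.commutator_mem_commutator (hl q hq).1 (hl q hq).2
  rwa [commutatorElement_def] at this

theorem DD_eq (G : Subgroup (unitaryGroup (Fin N) ℂ))
    (hG : IsClosed (G : Set (unitaryGroup (Fin N) ℂ))) :
    DD G ≤ (⁅G, G⁆ : Subgroup (unitaryGroup (Fin N) ℂ)) := by
  obtain ⟨n, O, hO, hOw⟩ := local_width G hG
  intro d hd
  have hd' : d ∈ closure ((⁅G, G⁆ : Subgroup (unitaryGroup (Fin N) ℂ)) :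
      Set (unitaryGroup (Fin N) ℂ)) := hd
  have hU : {c : unitaryGroup (Fin N) ℂ | c⁻¹ * d ∈ O} ∈ 𝓝 d := by
    have hc : ContinuousAt (fun c : unitaryGroup (Fin N) ℂ => c⁻¹ * d) d :=
      (continuous_inv.mul continuous_const).continuousAt
    refine hc ?_
    show O ∈ 𝓝 (d⁻¹ * d)
    rw [inv_mul_cancel]
    exact hO
  obtain ⟨c, hc1, hc2⟩ := mem_closure_iff_nhds.1 hd' _ hU
  obtain ⟨l, -, hl1, hl2⟩ := hOw (c⁻¹ * d)
    ((DD G).mul_mem ((DD G).inv_mem (Subgroup.le_topologicalClosure _ hc2)) hd) hc1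
  have h1 : c⁻¹ * d ∈ (⁅G, G⁆ : Subgroup (unitaryGroup (Fin N) ℂ)) := by
    rw [← hl2]; exact mem_com_of_list G l hl1
  have h2 := Subgroup.mul_mem _ hc2 h1
  rwa [mul_inv_cancel_left] at h2

theorem exists_list (G : Subgroup (unitaryGroup (Fin N) ℂ)) (d : unitaryGroup (Fin N) ℂ)
    (hd : d ∈ (⁅G, G⁆ : Subgroup (unitaryGroup (Fin N) ℂ))) :
    ∃ l : List (unitaryGroup (Fin N) ℂ × unitaryGroup (Fin N) ℂ),
      (∀ q ∈ l, q.1 ∈ G ∧ q.2 ∈ G) ∧ (l.map fun q => q.1 * q.2 * q.1⁻¹ * q.2⁻¹).prod = d := by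
  rw [Subgroup.commutator_def] at hd
  induction hd using Subgroup.closure_induction with
  | mem x hx =>
    obtain ⟨a, ha, b, hb, rfl⟩ := hx
    refine ⟨[(a, b)], by simp [ha, hb], ?_⟩
    simp [commutatorElement_def]
  | one => exact ⟨[], by simp, by simp⟩
  | mul x y _ _ hx hy =>
    obtain ⟨l1, h1, h1'⟩ := hx
    obtain ⟨l2, h2, h2'⟩ := hy
    refine ⟨l1 ++ l2, ?_, ?_⟩
    · intro q hq
      rcases List.mem_append.1 hq with hq | hq
      · exact h1 q hq
      · exact h2 q hq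
    · rw [List.map_append, List.prod_append, h1', h2']
  | inv x _ hx =>
    obtain ⟨l1, h1, h1'⟩ := hx
    refine ⟨(l1.map fun q => (q.2, q.1)).reverse, ?_, ?_⟩
    · intro q hq
      rw [List.mem_reverse, List.mem_map] at hq
      obtain ⟨q', hq', rfl⟩ := hq
      exact ⟨(h1 q' hq').2, (h1 q' hq').1⟩
    · rw [← h1', List.prod_inv_reverse, List.map_reverse, List.map_map, List.map_map]
      congr 2
      refine List.map_congr_left fun q _ => ?_
      simp only [Function.comp_apply]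
      group

theorem S_D_holds : S_D := by
  intro N G hG _
  obtain ⟨n, O, hO, hOw⟩ := local_width G hG
  haveI : CompactSpace (unitaryGroup (Fin N) ℂ) := Pool.LatH472.TTL_compact
  have hcomp : IsCompact (DD G : Set (unitaryGroup (Fin N) ℂ)) := (DD_closed G).isCompact
  obtain ⟨t, ht1, ht2⟩ := hcomp.elim_nhds_subcover
    (fun c => {d : unitaryGroup (Fin N) ℂ | c⁻¹ * d ∈ O}) (by
      intro c _
      have hc : ContinuousAt (fun d : unitaryGroup (Fin N) ℂ => c⁻¹ * d) c :=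
        (continuous_const.mul continuous_id).continuousAt
      refine hc ?_
      show O ∈ 𝓝 (c⁻¹ * c)
      rw [inv_mul_cancel]
      exact hO)
  have hex : ∀ c : unitaryGroup (Fin N) ℂ, ∃ l : List (unitaryGroup (Fin N) ℂ ×
      unitaryGroup (Fin N) ℂ), c ∈ DD G → (∀ q ∈ l, q.1 ∈ G ∧ q.2 ∈ G) ∧
        (l.map fun q => q.1 * q.2 * q.1⁻¹ * q.2⁻¹).prod = c := by
    intro c
    by_cases hc : c ∈ DD G
    · obtain ⟨l, hl⟩ := exists_list G c (DD_eq G hG hc)
      exact ⟨l, fun _ => hl⟩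
    · exact ⟨[], fun h => absurd h hc⟩
  choose L hL using hex
  refine ⟨t.sup (fun c => (L c).length) + n, pr G, ?_, ?_, ?_, ?_⟩
  · intro X hX
    refine ⟨pr_mem G hG hX, fun u hu => ?_⟩
    exact central_of_orth G hG (pr_mem G hG hX) (pr_mem_orth G X) u hu
  · intro X hX
    have h1 : X - pr G X ∈ LieAlg (DD G) := comSub_le_DD G hG (sub_pr_mem G X)
    obtain ⟨d, hd, hd2⟩ := h1 1
    rw [one_smul] at hd2
    exact ⟨d, DD_eq G hG hd, hd2⟩
  · have : (⁅G, G⁆ : Subgroup (unitaryGroup (Fin N) ℂ)) = DD G :=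
      le_antisymm (Subgroup.le_topologicalClosure _) (DD_eq G hG)
    rw [this]
    exact DD_closed G
  · intro d hd
    have hd' : d ∈ DD G := Subgroup.le_topologicalClosure _ hd
    obtain ⟨c, hc1, hc2⟩ := Set.mem_iUnion₂.1 (ht2 hd')
    have hcD : c ∈ DD G := ht1 c hc1
    obtain ⟨l, hl0, hl1, hl2⟩ := hOw (c⁻¹ * d) ((DD G).mul_mem ((DD G).inv_mem hcD) hd') hc2
    obtain ⟨h1, h2⟩ := hL c hcD
    refine ⟨L c ++ l, ?_, ?_, ?_⟩
    · rw [List.length_append]
      exact Nat.add_le_add (Finset.le_sup (f := fun c => (L c).length) hc1) hl0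
    · intro q hq
      rcases List.mem_append.1 hq with hq | hq
      · exact h1 q hq
      · exact hl1 q hq
    · rw [List.map_append, List.prod_append, h2, hl2, mul_inv_cancel_left]

end Pool.Agent.W342.EG
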