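import Mathlib
import Pool.Agent.W544.EG.Stubs
import Pool.Agent.Helper472.Lat_CST1
import Pool.Agent.Helper472.Lat_CST2

/-! Part D: Lie algebra basics -/

set_option autoImplicit false

open Matrix Filter Topology
open scoped Matrix.Norms.Frobenius

namespace Pool.Agent.W342.EG

open Pool.Agent.W544.EG

variable {N : ℕ}

theorem skew_of_mem {G : Subgroup (unitaryGroup (Fin N) ℂ)} {X : Mat N} (hX : X ∈ LieAlg G) :
    Xᴴ = -X := by
  have h4 : ∀ t : ℝ, NormedSpace.exp (t • Xᴴ) * NormedSpace.exp (t • X) = 1 := by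
    intro t
    obtain ⟨u, hu, hu2⟩ := hX t
    have h5 : (u : Mat N)ᴴ * (u : Mat N) = 1 := Matrix.mem_unitaryGroup_iff'.1 u.2
    rw [hu2] at h5
    have h6 := Pool.LatH472.CST2_conj X t
    have h7 : NormedSpace.exp (t • Xᴴ) * NormedSpace.exp (t • X) =
        (NormedSpace.exp (t • X))ᴴ * NormedSpace.exp (t • X) :=
      congrArg (fun M : Mat N => M * NormedSpace.exp (t • X)) h6.symm
    exact h7.trans h5
  exact eq_neg_of_add_eq_zero_left (Pool.LatH472.CST2_skew _ _ h4)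

theorem mem_iff {G : Subgroup (unitaryGroup (Fin N) ℂ)} {X : Mat N} :
    X ∈ LieAlg G ↔ X ∈ Pool.LatH472.LieAlg G :=
  ⟨fun h => ⟨skew_of_mem h, h⟩, fun h => h.2⟩

/-- the Lie algebra as a submodule -/
def lieSub (G : Subgroup (unitaryGroup (Fin N) ℂ)) (hG : IsClosed (G : Set (unitaryGroup (Fin N) ℂ))) :
    Submodule ℝ (Mat N) where
  carrier := LieAlg G
  add_mem' := by
    intro X Y hX hY
    exact mem_iff.2 (Pool.LatH472.CST1 (Fin N) G hG X (mem_iff.1 hX) Y (mem_iff.1 hY)).1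
  zero_mem' := fun t => ⟨1, G.one_mem, by rw [smul_zero, NormedSpace.exp_zero]; rfl⟩
  smul_mem' := by
    intro c X hX t
    obtain ⟨u, hu, hu2⟩ := hX (t * c)
    exact ⟨u, hu, by rw [hu2, smul_smul]⟩

theorem exp_conj_u (u : unitaryGroup (Fin N) ℂ) (X : Mat N) :
    NormedSpace.exp ((u : Mat N) * X * (u : Mat N)ᴴ) =
      (u : Mat N) * NormedSpace.exp X * (u : Mat N)ᴴ := by
  have h1 : (u : Mat N)ᴴ * (u : Mat N) = 1 := Matrix.mem_unitaryGroup_iff'.1 u.2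
  have h2 : (u : Mat N) * (u : Mat N)ᴴ = 1 := Matrix.mem_unitaryGroup_iff.1 u.2
  have := Matrix.exp_units_conj (𝔸 := ℂ) (⟨(u : Mat N), (u : Mat N)ᴴ, h2, h1⟩ : (Mat N)ˣ) X
  simpa using this

theorem conj_mem {G : Subgroup (unitaryGroup (Fin N) ℂ)} {X : Mat N} (hX : X ∈ LieAlg G)
    {u : unitaryGroup (Fin N) ℂ} (hu : u ∈ G) : (u : Mat N) * X * (u : Mat N)ᴴ ∈ LieAlg G := by
  intro t
  obtain ⟨v, hv, hv2⟩ := hX t
  refine ⟨u * v * u⁻¹, G.mul_mem (G.mul_mem hu hv) (G.inv_mem hu), ?_⟩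
  have : t • ((u : Mat N) * X * (u : Mat N)ᴴ) = (u : Mat N) * (t • X) * (u : Mat N)ᴴ := by
    simp
  rw [this, exp_conj_u, ← hv2]
  rfl

end Pool.Agent.W342.EG
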