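import Pool.Agent.W342.EG.D1

/-! Part D: orthogonal decomposition of the Lie algebra -/

set_option autoImplicit false

open Matrix Filter Topology
open scoped Matrix.Norms.Frobenius

namespace Pool.Agent.W342.EG

open Pool.Agent.W544.EG

variable {N : ℕ}

/-- the real Frobenius inner product -/
noncomputable def B : LinearMap.BilinForm ℝ (Mat N) :=
  LinearMap.mk₂ ℝ (fun X Y => (trace (Xᴴ * Y)).re)
    (by intro a b c; simp [Matrix.add_mul])
    (by intro a b c; simp)
    (by intro a b c; simp [Matrix.mul_add])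
    (by intro a b c; simp)

theorem B_apply (X Y : Mat N) : B X Y = (trace (Xᴴ * Y)).re := rfl

theorem B_symm (X Y : Mat N) : B X Y = B Y X := by
  rw [B_apply, B_apply]
  have : Yᴴ * X = (Xᴴ * Y)ᴴ := by rw [conjTranspose_mul, conjTranspose_conjTranspose]
  rw [this, trace_conjTranspose]
  simp

theorem B_self (X : Mat N) : B X X = ∑ i, ∑ j, ‖X j i‖ ^ 2 := by
  rw [B_apply, trace]
  simp only [diag_apply, mul_apply, conjTranspose_apply, Complex.re_sum]
  refine Finset.sum_congr rfl fun i _ => Finset.sum_congr rfl fun j _ => ?_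
  rw [RCLike.star_def, mul_comm, Complex.mul_conj, Complex.normSq_eq_norm_sq]
  norm_cast

theorem B_eq_zero {X : Mat N} (h : B X X = 0) : X = 0 := by
  rw [B_self] at h
  ext i j
  have h1 := (Finset.sum_eq_zero_iff_of_nonneg (fun i _ => Finset.sum_nonneg
    fun j _ => by positivity)).1 h j (Finset.mem_univ _)
  have h2 := (Finset.sum_eq_zero_iff_of_nonneg (fun i _ => by positivity)).1 h1 i (Finset.mem_univ _)
  simpa using h2

theorem B_conj (u : unitaryGroup (Fin N) ℂ) (A Z : Mat N) :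
    B ((u : Mat N) * A * (u : Mat N)ᴴ) Z = B A ((u : Mat N)ᴴ * Z * (u : Mat N)) := by
  rw [B_apply, B_apply]
  congr 1
  rw [conjTranspose_mul, conjTranspose_mul, conjTranspose_conjTranspose]
  rw [Matrix.mul_assoc, Matrix.trace_mul_comm]
  simp only [Matrix.mul_assoc]

theorem isCompl_orth (W : Submodule ℝ (Mat N)) : IsCompl W (B.orthogonal W) := by
  refine LinearMap.BilinForm.isCompl_orthogonal_of_restrict_nondegenerate ?_ ?_
  · intro X Y h
    rw [B_symm]; exact h
  · constructor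
    · intro x hx
      have := hx x
      exact Subtype.ext (B_eq_zero this)
    · intro x hx
      have := hx x
      exact Subtype.ext (B_eq_zero this)

/-- span of the `u A uᴴ - A` -/
noncomputable def comSub (G : Subgroup (unitaryGroup (Fin N) ℂ)) : Submodule ℝ (Mat N) :=
  Submodule.span ℝ {Y | ∃ u ∈ G, ∃ A ∈ LieAlg G, Y = (u : Mat N) * A * (u : Mat N)ᴴ - A}

theorem comSub_le (G : Subgroup (unitaryGroup (Fin N) ℂ))
    (hG : IsClosed (G : Set (unitaryGroup (Fin N) ℂ))) : comSub G ≤ lieSub G hG := by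
  refine Submodule.span_le.2 ?_
  rintro Y ⟨u, hu, A, hA, rfl⟩
  exact (lieSub G hG).sub_mem (conj_mem hA hu) hA

theorem central_of_orth (G : Subgroup (unitaryGroup (Fin N) ℂ))
    (hG : IsClosed (G : Set (unitaryGroup (Fin N) ℂ))) {Z : Mat N} (hZ : Z ∈ LieAlg G)
    (ho : Z ∈ B.orthogonal (comSub G)) (u : unitaryGroup (Fin N) ℂ) (hu : u ∈ G) :
    (u : Mat N) * Z = Z * (u : Mat N) := by
  have h1 : (u : Mat N)ᴴ * (u : Mat N) = 1 := Matrix.mem_unitaryGroup_iff'.1 u.2
  have h2 : (u : Mat N) * (u : Mat N)ᴴ = 1 := Matrix.mem_unitaryGroup_iff.1 u.2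
  have hA : (u : Mat N)ᴴ * Z * (u : Mat N) - Z ∈ LieAlg G := by
    have h3 := conj_mem hZ (G.inv_mem hu)
    have h4 : ((u⁻¹ : unitaryGroup (Fin N) ℂ) : Mat N) = (u : Mat N)ᴴ := rfl
    rw [h4, conjTranspose_conjTranspose] at h3
    exact (lieSub G hG).sub_mem h3 hZ
  have h5 : B ((u : Mat N) * ((u : Mat N)ᴴ * Z * (u : Mat N) - Z) * (u : Mat N)ᴴ -
      ((u : Mat N)ᴴ * Z * (u : Mat N) - Z)) Z = 0 :=
    ho _ (Submodule.subset_span ⟨u, hu, _, hA, rfl⟩)
  rw [map_sub, LinearMap.sub_apply, B_conj, ← map_sub] at h5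
  have h6 := B_eq_zero h5
  have h7 : (u : Mat N) * ((u : Mat N)ᴴ * Z * (u : Mat N)) = (u : Mat N) * Z := by
    rw [sub_eq_zero.1 h6]
  rw [← h7, ← Matrix.mul_assoc, ← Matrix.mul_assoc, h2, Matrix.one_mul]

/-- projection to the centre -/
noncomputable def pr (G : Subgroup (unitaryGroup (Fin N) ℂ)) : Mat N →ₗ[ℝ] Mat N :=
  (B.orthogonal (comSub G)).subtype ∘ₗ
    Submodule.projectionOnto _ _ (isCompl_orth (comSub G)).symm

theorem pr_mem_orth (G : Subgroup (unitaryGroup (Fin N) ℂ)) (X : Mat N) :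
    pr G X ∈ B.orthogonal (comSub G) := Subtype.coe_prop _

theorem sub_pr_mem (G : Subgroup (unitaryGroup (Fin N) ℂ)) (X : Mat N) :
    X - pr G X ∈ comSub G := by
  have h : Submodule.projectionOnto _ _ (isCompl_orth (comSub G)).symm (X - pr G X) = 0 := by
    rw [map_sub]
    have : Submodule.projectionOnto _ _ (isCompl_orth (comSub G)).symm (pr G X) =
        Submodule.projectionOnto _ _ (isCompl_orth (comSub G)).symm X :=
      Submodule.projectionOnto_apply_left _ _
    rw [this, sub_self]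
  exact (Submodule.projectionOnto_apply_eq_zero_iff _).1 h

theorem pr_mem (G : Subgroup (unitaryGroup (Fin N) ℂ))
    (hG : IsClosed (G : Set (unitaryGroup (Fin N) ℂ))) {X : Mat N} (hX : X ∈ LieAlg G) :
    pr G X ∈ LieAlg G := by
  have h1 : X - (X - pr G X) ∈ lieSub G hG :=
    (lieSub G hG).sub_mem hX (comSub_le G hG (sub_pr_mem G X))
  rwa [sub_sub_cancel] at h1

end Pool.Agent.W342.EG
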