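import Pool.Agent.W342.EG.D2

/-! Part D: the Lie algebra of the closure of the commutator subgroup -/

set_option autoImplicit false

open Matrix Filter Topology
open scoped Matrix.Norms.Frobenius

namespace Pool.Agent.W342.EG

open Pool.Agent.W544.EG

variable {N : ℕ}

/-- elements of `G` on which `det (d P + 1 - P) = 1` -/
def detSub (G : Subgroup (unitaryGroup (Fin N) ℂ)) (P : Mat N) (hP : P * P = P)
    (hc : ∀ u ∈ G, (u : Mat N) * P = P * (u : Mat N)) : Subgroup (unitaryGroup (Fin N) ℂ) where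
  carrier := {d | d ∈ G ∧ ((d : Mat N) * P + 1 - P).det = 1}
  mul_mem' := by
    rintro a b ⟨ha, ha'⟩ ⟨hb, hb'⟩
    refine ⟨G.mul_mem ha hb, ?_⟩
    have h : (((a * b : unitaryGroup (Fin N) ℂ) : Mat N) * P + 1 - P) =
        ((a : Mat N) * P + 1 - P) * ((b : Mat N) * P + 1 - P) := by
      have h1 : ((a * b : unitaryGroup (Fin N) ℂ) : Mat N) = (a : Mat N) * (b : Mat N) := rfl
      rw [h1]
      have h2 : P * ((b : Mat N) * P) = (b : Mat N) * P := by
        rw [← Matrix.mul_assoc, ← hc b hb, Matrix.mul_assoc, hP]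
      have h3 : (a : Mat N) * P * ((b : Mat N) * P) = (a : Mat N) * (b : Mat N) * P := by
        rw [Matrix.mul_assoc, h2, Matrix.mul_assoc]
      have h4 : (a : Mat N) * P * P = (a : Mat N) * P := by rw [Matrix.mul_assoc, hP]
      simp only [Matrix.mul_sub, Matrix.sub_mul, Matrix.mul_add, Matrix.add_mul, h3, h2, h4,
        Matrix.mul_one, Matrix.one_mul, hP]
      abel
    rw [h, Matrix.det_mul, ha', hb', one_mul]
  one_mem' := by
    refine ⟨G.one_mem, ?_⟩
    have h1 : ((1 : unitaryGroup (Fin N) ℂ) : Mat N) = 1 := rfl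
    rw [h1, Matrix.one_mul, add_sub_cancel_left, Matrix.det_one]
  inv_mem' := by
    rintro a ⟨ha, ha'⟩
    refine ⟨G.inv_mem ha, ?_⟩
    have h : (1 : Mat N) =
        ((a : Mat N) * P + 1 - P) * (((a⁻¹ : unitaryGroup (Fin N) ℂ) : Mat N) * P + 1 - P) := by
      have h1 : (a : Mat N) * ((a⁻¹ : unitaryGroup (Fin N) ℂ) : Mat N) = 1 :=
        congrArg Subtype.val (mul_inv_cancel a)
      have h2 : P * (((a⁻¹ : unitaryGroup (Fin N) ℂ) : Mat N) * P) =
          ((a⁻¹ : unitaryGroup (Fin N) ℂ) : Mat N) * P := by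
        rw [← Matrix.mul_assoc, ← hc _ (G.inv_mem ha), Matrix.mul_assoc, hP]
      have h3 : (a : Mat N) * P * (((a⁻¹ : unitaryGroup (Fin N) ℂ) : Mat N) * P) = P := by
        rw [Matrix.mul_assoc, h2, ← Matrix.mul_assoc, h1, Matrix.one_mul]
      have h4 : (a : Mat N) * P * P = (a : Mat N) * P := by rw [Matrix.mul_assoc, hP]
      simp only [Matrix.mul_sub, Matrix.sub_mul, Matrix.mul_add, Matrix.add_mul, h3, h2, h4,
        Matrix.mul_one, Matrix.one_mul, hP]
      abel
    have h5 := congrArg Matrix.det h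
    rw [Matrix.det_mul, ha', one_mul, Matrix.det_one] at h5
    exact h5.symm

theorem detSub_closed (G : Subgroup (unitaryGroup (Fin N) ℂ))
    (hG : IsClosed (G : Set (unitaryGroup (Fin N) ℂ))) (P : Mat N) (hP : P * P = P)
    (hc : ∀ u ∈ G, (u : Mat N) * P = P * (u : Mat N)) :
    IsClosed (detSub G P hP hc : Set (unitaryGroup (Fin N) ℂ)) := by
  have h2 : Continuous fun d : unitaryGroup (Fin N) ℂ => ((d : Mat N) * P + 1 - P).det := by
    refine Continuous.matrix_det ?_
    refine Continuous.sub (Continuous.add ?_ continuous_const) continuous_const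
    exact Continuous.matrix_mul continuous_subtype_val continuous_const
  exact hG.inter (isClosed_eq h2 continuous_const)

theorem commutator_le_detSub (G : Subgroup (unitaryGroup (Fin N) ℂ)) (P : Mat N) (hP : P * P = P)
    (hc : ∀ u ∈ G, (u : Mat N) * P = P * (u : Mat N)) : ⁅G, G⁆ ≤ detSub G P hP hc := by
  rw [Subgroup.commutator_le]
  intro a ha b hb
  have key : ∀ a ∈ G, ∀ b ∈ G, (((a * b : unitaryGroup (Fin N) ℂ) : Mat N) * P + 1 - P) =
        ((a : Mat N) * P + 1 - P) * ((b : Mat N) * P + 1 - P) := by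
      intro a ha b hb
      have h1 : ((a * b : unitaryGroup (Fin N) ℂ) : Mat N) = (a : Mat N) * (b : Mat N) := rfl
      rw [h1]
      have h2 : P * ((b : Mat N) * P) = (b : Mat N) * P := by
        rw [← Matrix.mul_assoc, ← hc b hb, Matrix.mul_assoc, hP]
      have h3 : (a : Mat N) * P * ((b : Mat N) * P) = (a : Mat N) * (b : Mat N) * P := by
        rw [Matrix.mul_assoc, h2, Matrix.mul_assoc]
      have h4 : (a : Mat N) * P * P = (a : Mat N) * P := by rw [Matrix.mul_assoc, hP]
      simp only [Matrix.mul_sub, Matrix.sub_mul, Matrix.mul_add, Matrix.add_mul, h3, h2, h4,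
        Matrix.mul_one, Matrix.one_mul, hP]
      abel
  have hinv : ∀ a ∈ G, ((a : Mat N) * P + 1 - P).det *
      (((a⁻¹ : unitaryGroup (Fin N) ℂ) : Mat N) * P + 1 - P).det = 1 := by
    intro a ha
    rw [← Matrix.det_mul, ← key a ha _ (G.inv_mem ha), mul_inv_cancel]
    exact (detSub G P hP hc).one_mem.2
  rw [commutatorElement_def]
  refine ⟨?_, ?_⟩
  · exact G.mul_mem (G.mul_mem (G.mul_mem ha hb) (G.inv_mem ha)) (G.inv_mem hb)
  · rw [key _ (G.mul_mem (G.mul_mem ha hb) (G.inv_mem ha)) _ (G.inv_mem hb),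
      key _ (G.mul_mem ha hb) _ (G.inv_mem ha), key _ ha _ hb, Matrix.det_mul, Matrix.det_mul,
      Matrix.det_mul]
    have h1 := hinv a ha
    have h2 := hinv b hb
    linear_combination (((b : Mat N) * P + 1 - P).det *
      (((b⁻¹ : unitaryGroup (Fin N) ℂ) : Mat N) * P + 1 - P).det) * h1 + h2

theorem closure_le_detSub (G : Subgroup (unitaryGroup (Fin N) ℂ))
    (hG : IsClosed (G : Set (unitaryGroup (Fin N) ℂ))) (P : Mat N) (hP : P * P = P)
    (hc : ∀ u ∈ G, (u : Mat N) * P = P * (u : Mat N)) :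
    (⁅G, G⁆ : Subgroup (unitaryGroup (Fin N) ℂ)).topologicalClosure ≤ detSub G P hP hc :=
  Subgroup.topologicalClosure_minimal _ (commutator_le_detSub G P hP hc) (detSub_closed G hG P hP hc)

end Pool.Agent.W342.EG
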