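import Pool.Agent.W342.EG.D3

/-! Part D: no central elements in the Lie algebra of the closure of the commutator subgroup -/

set_option autoImplicit false

open Matrix Filter Topology
open scoped Matrix.Norms.Frobenius

namespace Pool.Agent.W342.EG

open Pool.Agent.W544.EG

variable {N : ℕ}

theorem central_zero (G : Subgroup (unitaryGroup (Fin N) ℂ))
    (hG : IsClosed (G : Set (unitaryGroup (Fin N) ℂ))) (Z : Mat N) (hZ : Zᴴ = -Z)
    (hc : ∀ u ∈ G, (u : Mat N) * Z = Z * (u : Mat N))
    (hD : ∀ t : ℝ, ∃ d ∈ (⁅G, G⁆ : Subgroup (unitaryGroup (Fin N) ℂ)).topologicalClosure,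
      (d : Mat N) = NormedSpace.exp (t • Z)) : Z = 0 := by
  set H : Mat N := Complex.I • Z with hHdef
  have hH : H.IsHermitian := by
    rw [Matrix.IsHermitian, hHdef, conjTranspose_smul, hZ]
    simp
  set V : unitaryGroup (Fin N) ℂ := hH.eigenvectorUnitary with hV
  set lam : Fin N → ℝ := hH.eigenvalues with hlam
  have h1 : (V : Mat N)ᴴ * (V : Mat N) = 1 := Matrix.mem_unitaryGroup_iff'.1 V.2
  have h2 : (V : Mat N) * (V : Mat N)ᴴ = 1 := Matrix.mem_unitaryGroup_iff.1 V.2
  have hsp : H = (V : Mat N) * diagonal (fun k => (lam k : ℂ)) * (V : Mat N)ᴴ := by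
    have := hH.spectral_theorem
    rw [Unitary.conjStarAlgAut_apply] at this
    exact this
  have hZsp : Z = (V : Mat N) * diagonal (fun k => -Complex.I * (lam k : ℂ)) * (V : Mat N)ᴴ := by
    have e1 : Z = (-Complex.I) • H := by rw [hHdef, smul_smul]; simp
    have e2 : diagonal (fun k => -Complex.I * (lam k : ℂ)) =
        (-Complex.I) • diagonal (fun k => (lam k : ℂ)) := by
      ext i j
      simp [diagonal_apply]
    rw [e1, hsp, e2]
    simp
  have hall : ∀ k, lam k = 0 := by
    intro k0
    set c := lam k0 with hcdef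
    set e : Fin N → ℂ := fun k => if lam k = c then 1 else 0 with he
    set P : Mat N := (V : Mat N) * diagonal e * (V : Mat N)ᴴ with hP
    have hPP : P * P = P := by
      have : P * P = (V : Mat N) * diagonal e * ((V : Mat N)ᴴ * (V : Mat N)) * diagonal e *
          (V : Mat N)ᴴ := by rw [hP]; simp only [Matrix.mul_assoc]
      rw [this, h1, Matrix.mul_one, Matrix.mul_assoc (V : Mat N), diagonal_mul_diagonal, hP]
      congr 3
      ext k
      rw [he]; dsimp only
      split_ifs <;> simp
    have hPc : ∀ u ∈ G, (u : Mat N) * P = P * (u : Mat N) := by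
      intro u hu
      set M : Mat N := (V : Mat N)ᴴ * (u : Mat N) * (V : Mat N) with hM
      have hcomm : M * diagonal (fun k => -Complex.I * (lam k : ℂ)) =
          diagonal (fun k => -Complex.I * (lam k : ℂ)) * M := by
        have h3 := hc u hu
        have h4 : (V : Mat N)ᴴ * ((u : Mat N) * Z) * (V : Mat N) =
          (V : Mat N)ᴴ * (Z * (u : Mat N)) * (V : Mat N) := by rw [h3]
        have h5 : (V : Mat N)ᴴ * ((u : Mat N) * Z) * (V : Mat N) =
            M * diagonal (fun k => -Complex.I * (lam k : ℂ)) * ((V : Mat N)ᴴ * (V : Mat N)) := by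
          rw [hM]; nth_rewrite 1 [hZsp]; simp only [Matrix.mul_assoc]
        have h6 : (V : Mat N)ᴴ * (Z * (u : Mat N)) * (V : Mat N) =
            ((V : Mat N)ᴴ * (V : Mat N)) * diagonal (fun k => -Complex.I * (lam k : ℂ)) * M := by
          rw [hM]; nth_rewrite 1 [hZsp]; simp only [Matrix.mul_assoc]
        rw [h5, h6, h1, Matrix.mul_one, Matrix.one_mul] at h4
        exact h4
      have hcomm2 : M * diagonal e = diagonal e * M := by
        ext k l
        have h7 := congrFun (congrFun hcomm k) l
        rw [mul_diagonal, diagonal_mul] at h7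
        rw [mul_diagonal, diagonal_mul]
        by_cases hM0 : M k l = 0
        · rw [hM0]; simp
        · have h8 : (lam l : ℂ) = lam k := by
            have h9 : (-Complex.I) * M k l * ((lam l : ℂ) - lam k) = 0 := by linear_combination h7
            have h10 : (-Complex.I) * M k l ≠ 0 :=
              mul_ne_zero (neg_ne_zero.2 Complex.I_ne_zero) hM0
            exact sub_eq_zero.1 ((mul_eq_zero.1 h9).resolve_left h10)
          have h11 : lam l = lam k := by exact_mod_cast h8
          have h12 : e l = e k := by rw [he]; simp only [h11]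
          rw [h12, mul_comm]
      have hu' : (u : Mat N) = (V : Mat N) * M * (V : Mat N)ᴴ := by
        rw [hM]
        have : (V : Mat N) * ((V : Mat N)ᴴ * (u : Mat N) * (V : Mat N)) * (V : Mat N)ᴴ =
          ((V : Mat N) * (V : Mat N)ᴴ) * (u : Mat N) * ((V : Mat N) * (V : Mat N)ᴴ) := by
          simp only [Matrix.mul_assoc]
        rw [this, h2, Matrix.one_mul, Matrix.mul_one]
      have e1 : (u : Mat N) * P = (V : Mat N) * (M * diagonal e) * (V : Mat N)ᴴ := by
        calc (u : Mat N) * P = (V : Mat N) * M * ((V : Mat N)ᴴ * (V : Mat N)) * diagonal e *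
              (V : Mat N)ᴴ := by
              rw [hP]; nth_rewrite 1 [hu']; simp only [Matrix.mul_assoc]
          _ = _ := by rw [h1, Matrix.mul_one]; simp only [Matrix.mul_assoc]
      have e2 : P * (u : Mat N) = (V : Mat N) * (diagonal e * M) * (V : Mat N)ᴴ := by
        calc P * (u : Mat N) = (V : Mat N) * diagonal e * ((V : Mat N)ᴴ * (V : Mat N)) * M *
              (V : Mat N)ᴴ := by
              rw [hP]; nth_rewrite 1 [hu']; simp only [Matrix.mul_assoc]
          _ = _ := by rw [h1, Matrix.mul_one]; simp only [Matrix.mul_assoc]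
      rw [e1, e2, hcomm2]
    have hdet : ∀ t : ℝ, ∏ k, (Complex.exp (-Complex.I * lam k * t) * e k + 1 - e k) = 1 := by
      intro t
      obtain ⟨d, hd, hd2⟩ := hD t
      have h3 := (closure_le_detSub G hG P hPP hPc hd).2
      have h4 : NormedSpace.exp (t • Z) =
          (V : Mat N) * diagonal (fun k => Complex.exp (-Complex.I * lam k * t)) * (V : Mat N)ᴴ := by
        have h5 : t • Z = (V : Mat N) * diagonal (fun k => -Complex.I * lam k * t) *
            (V : Mat N)ᴴ := by
          have h6 : diagonal (fun k => -Complex.I * lam k * t) =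
              t • diagonal (fun k => -Complex.I * (lam k : ℂ)) := by
            ext i j
            simp only [diagonal_apply, Matrix.smul_apply]
            split_ifs
            · rw [Complex.real_smul]; ring
            · simp
          rw [h6]
          nth_rewrite 1 [hZsp]
          simp
        rw [h5, exp_conj_u, Matrix.exp_diagonal]
        congr 3
        ext k
        rw [Pi.coe_exp, ← Complex.exp_eq_exp_ℂ]
      rw [hd2, h4] at h3
      have h7 : (V : Mat N) * diagonal (fun k => Complex.exp (-Complex.I * lam k * t)) *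
          (V : Mat N)ᴴ * P + 1 - P = (V : Mat N) *
            diagonal (fun k => Complex.exp (-Complex.I * lam k * t) * e k + 1 - e k) *
            (V : Mat N)ᴴ := by
        have h8 : diagonal (fun k => Complex.exp (-Complex.I * lam k * t) * e k + 1 - e k) =
            diagonal (fun k => Complex.exp (-Complex.I * lam k * t)) * diagonal e + 1 -
              diagonal e := by
          rw [diagonal_mul_diagonal, ← diagonal_one, diagonal_add, diagonal_sub]
        have h9 : (V : Mat N) * diagonal (fun k => Complex.exp (-Complex.I * lam k * t)) *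
          (V : Mat N)ᴴ * P = (V : Mat N) * diagonal (fun k => Complex.exp (-Complex.I * lam k * t)) *
          ((V : Mat N)ᴴ * (V : Mat N)) * diagonal e * (V : Mat N)ᴴ := by
          rw [hP]; simp only [Matrix.mul_assoc]
        rw [h9, h1, h8, Matrix.mul_one, Matrix.mul_sub, Matrix.mul_add, Matrix.mul_one,
          Matrix.sub_mul, Matrix.add_mul, h2, hP]
        simp only [Matrix.mul_assoc]
      rw [h7, Matrix.det_mul, Matrix.det_mul, det_diagonal] at h3
      have h10 : (V : Mat N).det * ((V : Mat N)ᴴ).det = 1 := by
        rw [← Matrix.det_mul, h2, Matrix.det_one]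
      linear_combination h3 - (∏ k, (Complex.exp (-Complex.I * lam k * t) * e k + 1 - e k)) * h10
    have hprod : ∀ t : ℝ, Complex.exp (-Complex.I * c * t) ^
        (Finset.univ.filter fun k => lam k = c).card = 1 := by
      intro t
      rw [← hdet t, ← Finset.prod_const, Finset.prod_filter]
      refine Finset.prod_congr rfl fun k _ => ?_
      rw [he]
      dsimp only
      split_ifs with hk
      · rw [hk]; ring
      · ring
    set n := (Finset.univ.filter fun k => lam k = c).card with hn
    have hn0 : 0 < n := Finset.card_pos.2 ⟨k0, by simp [hcdef]⟩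
    by_contra hc0
    have h3 := hprod (Real.pi / (c * n))
    rw [← Complex.exp_nat_mul] at h3
    have h4 : (n : ℂ) * (-Complex.I * c * ((Real.pi / (c * n) : ℝ) : ℂ)) = -(Real.pi * Complex.I) := by
      have hnC : (n : ℂ) ≠ 0 := by exact_mod_cast hn0.ne'
      have hcC : (c : ℂ) ≠ 0 := by exact_mod_cast hc0
      push_cast
      field_simp
    rw [h4, Complex.exp_neg, Complex.exp_pi_mul_I] at h3
    norm_num at h3
  rw [hZsp]
  have : (fun k => -Complex.I * (lam k : ℂ)) = 0 := by
    ext k; simp [hall k]
  rw [this]
  simp

end Pool.Agent.W342.EG
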