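import Pool.Agent.W342.EG.D4

/-! Part D: the Lie algebra of the closure of the commutator subgroup -/

set_option autoImplicit false

open Matrix Filter Topology
open scoped Matrix.Norms.Frobenius

namespace Pool.Agent.W342.EG

open Pool.Agent.W544.EG

variable {N : ℕ}

/-- closure of the commutator subgroup -/
noncomputable abbrev DD (G : Subgroup (unitaryGroup (Fin N) ℂ)) : Subgroup (unitaryGroup (Fin N) ℂ) :=
  (⁅G, G⁆ : Subgroup (unitaryGroup (Fin N) ℂ)).topologicalClosure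

theorem DD_closed (G : Subgroup (unitaryGroup (Fin N) ℂ)) :
    IsClosed (DD G : Set (unitaryGroup (Fin N) ℂ)) := Subgroup.isClosed_topologicalClosure _

theorem DD_le (G : Subgroup (unitaryGroup (Fin N) ℂ))
    (hG : IsClosed (G : Set (unitaryGroup (Fin N) ℂ))) : DD G ≤ G :=
  Subgroup.topologicalClosure_minimal _ (Subgroup.commutator_le.2 fun a ha b hb => by
    rw [commutatorElement_def]
    exact G.mul_mem (G.mul_mem (G.mul_mem ha hb) (G.inv_mem ha)) (G.inv_mem hb)) hG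

theorem com_mem_lie (G : Subgroup (unitaryGroup (Fin N) ℂ))
    (hG : IsClosed (G : Set (unitaryGroup (Fin N) ℂ))) (u : unitaryGroup (Fin N) ℂ) (hu : u ∈ G)
    (A : Mat N) (hA : A ∈ LieAlg G) : (u : Mat N) * A * (u : Mat N)ᴴ - A ∈ LieAlg (DD G) := by
  have hBA : (u : Mat N) * A * (u : Mat N)ᴴ ∈ LieAlg G := conj_mem hA hu
  have hsA := skew_of_mem hA
  have hsB := skew_of_mem hBA
  have hsC : ((u : Mat N) * A * (u : Mat N)ᴴ - A)ᴴ = -((u : Mat N) * A * (u : Mat N)ᴴ - A) := by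
    rw [conjTranspose_sub, hsA, hsB]; abel
  intro t
  -- the commutators
  have hc : ∀ s : ℝ, ∃ c ∈ (⁅G, G⁆ : Subgroup (unitaryGroup (Fin N) ℂ)), (c : Mat N) =
      NormedSpace.exp (s • ((u : Mat N) * A * (u : Mat N)ᴴ)) * NormedSpace.exp (s • (-A)) := by
    intro s
    obtain ⟨a, ha, ha2⟩ := hA s
    refine ⟨u * a * u⁻¹ * a⁻¹, ?_, ?_⟩
    · have := Subgroup.commutator_mem_commutator hu ha
      rwa [commutatorElement_def] at this
    · have h1 : s • ((u : Mat N) * A * (u : Mat N)ᴴ) = (u : Mat N) * (s • A) * (u : Mat N)ᴴ := by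
        simp
      have h2 : (s • A)ᴴ = -(s • A) := Pool.LatH472.CST1_skew s A hsA
      have h3 : NormedSpace.exp (s • (-A)) = ((a : Mat N))ᴴ := by
        rw [ha2, ← Matrix.exp_conjTranspose, h2, smul_neg]
      rw [h1, exp_conj_u, h3, ← ha2]
      rfl
  choose c hc1 hc2 using hc
  have hw : NormedSpace.exp (t • ((u : Mat N) * A * (u : Mat N)ᴴ - A)) ∈ unitaryGroup (Fin N) ℂ :=
    Pool.LatH472.CST1_uni _ (Pool.LatH472.CST1_skew t _ hsC)
  refine ⟨⟨_, hw⟩, ?_, rfl⟩
  have ht := Pool.LatH472.CST1_mat (t • ((u : Mat N) * A * (u : Mat N)ᴴ)) (t • (-A)) (fun m => by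
      rw [Pool.LatH472.CST1_sm, Pool.LatH472.CST1_sm, ← hc2]
      exact (c _).2)
    (fun m => by
      rw [← smul_add, Pool.LatH472.CST1_sm, ← sub_eq_add_neg]
      exact Pool.LatH472.CST1_uni _ (Pool.LatH472.CST1_skew _ _ hsC))
  have hconv : Tendsto (fun m : ℕ => (c (((m : ℝ) + 1)⁻¹ * t)) ^ (m + 1))
      atTop (𝓝 (⟨NormedSpace.exp (t • ((u : Mat N) * A * (u : Mat N)ᴴ - A)), hw⟩ :
        unitaryGroup (Fin N) ℂ)) := by
    rw [tendsto_subtype_rng]
    rw [← smul_add, ← sub_eq_add_neg] at ht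
    refine ht.congr fun m => ?_
    rw [Pool.LatH472.CST1_sm, Pool.LatH472.CST1_sm, ← hc2]
    rfl
  refine (DD_closed G).mem_of_tendsto hconv (Eventually.of_forall fun m => ?_)
  exact Subgroup.le_topologicalClosure _ (pow_mem (hc1 _) _)

theorem comSub_le_DD (G : Subgroup (unitaryGroup (Fin N) ℂ))
    (hG : IsClosed (G : Set (unitaryGroup (Fin N) ℂ))) : comSub G ≤ lieSub (DD G) (DD_closed G) := by
  refine Submodule.span_le.2 ?_
  rintro Y ⟨u, hu, A, hA, rfl⟩
  exact com_mem_lie G hG u hu A hA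

theorem lie_DD (G : Subgroup (unitaryGroup (Fin N) ℂ))
    (hG : IsClosed (G : Set (unitaryGroup (Fin N) ℂ))) {X : Mat N} (hX : X ∈ LieAlg (DD G)) :
    X ∈ comSub G := by
  have hXG : X ∈ LieAlg G := fun t => by
    obtain ⟨d, hd, hd2⟩ := hX t
    exact ⟨d, DD_le G hG hd, hd2⟩
  have h1 : pr G X ∈ LieAlg (DD G) := by
    have h2 : X - (X - pr G X) ∈ lieSub (DD G) (DD_closed G) :=
      (lieSub (DD G) (DD_closed G)).sub_mem hX (comSub_le_DD G hG (sub_pr_mem G X))
    rwa [sub_sub_cancel] at h2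
  have h3 : pr G X = 0 := by
    refine central_zero G hG _ (skew_of_mem h1) ?_ h1
    exact fun u hu => central_of_orth G hG (pr_mem G hG hXG) (pr_mem_orth G X) u hu
  have h4 := sub_pr_mem G X
  rwa [h3, sub_zero] at h4

end Pool.Agent.W342.EG
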