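import Pool.Agent.W342.EG.D5
import Pool.Agent.Helper472.Lat_TTL

/-! Part D: products of commutators fill a neighbourhood -/

set_option autoImplicit false

open Matrix Filter Topology
open scoped Matrix.Norms.Frobenius

namespace Pool.Agent.W342.EG

open Pool.Agent.W544.EG

variable {N : ℕ}

theorem prod_deriv {E 𝔸 : Type*} [NormedAddCommGroup E] [NormedSpace ℝ E] [NormedRing 𝔸]
    [NormedAlgebra ℝ 𝔸] : ∀ (n : ℕ) (f : Fin n → E → 𝔸) (f' : Fin n → E →L[ℝ] 𝔸),
    (∀ i, HasStrictFDerivAt (f i) (f' i) 0) → (∀ i, f i 0 = 1) →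
    HasStrictFDerivAt (fun s => (List.ofFn fun i => f i s).prod) (∑ i, f' i) 0 ∧
      (List.ofFn fun i => f i 0).prod = 1 := by
  intro n
  induction n with
  | zero =>
    intro f f' _ _
    simp only [List.ofFn_zero, List.prod_nil, Finset.univ_eq_empty, Finset.sum_empty, and_true]
    exact hasStrictFDerivAt_const _ _
  | succ n ih =>
    intro f f' h h1
    obtain ⟨h2, h3⟩ := ih (fun i => f i.succ) (fun i => f' i.succ) (fun i => h _) (fun i => h1 _)
    simp only [List.ofFn_succ, List.prod_cons]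
    refine ⟨?_, ?_⟩
    · have h4 := (h 0).mul' h2
      refine h4.congr_fderiv ?_
      rw [Fin.sum_univ_succ, h3, h1 0]
      ext z
      simp [add_comm]
    · rw [h3, h1 0, one_mul]

set_option backward.isDefEq.respectTransparency false in
theorem com_deriv (U V A : Mat N) (hUV : U * V = 1) {E : Type*} [NormedAddCommGroup E]
    [NormedSpace ℝ E] (l : E →L[ℝ] ℝ) :
    HasStrictFDerivAt (fun s : E => NormedSpace.exp (l s • (U * A * V)) *
      NormedSpace.exp (l s • (-A))) (l.smulRight (U * A * V - A)) 0 := by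
  letI : NormedAlgebra ℚ (Mat N) := NormedAlgebra.restrictScalars ℚ ℝ (Mat N)
  have key : ∀ C : Mat N, HasStrictFDerivAt (fun s : E => NormedSpace.exp (l s • C))
      (l.smulRight C) 0 := by
    intro C
    have hE : HasStrictFDerivAt (NormedSpace.exp : Mat N → Mat N) (1 : Mat N →L[ℝ] Mat N)
        (l 0 • C) := by
      rw [map_zero, zero_smul]
      exact hasStrictFDerivAt_exp_zero
    have h2 : HasStrictFDerivAt (fun s : E => l s • C) (l.smulRight C) 0 :=
      (l.smulRight C).hasStrictFDerivAt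
    exact hE.comp 0 h2
  have h := (key (U * A * V)).mul' (key (-A))
  refine h.congr_fderiv ?_
  refine ContinuousLinearMap.ext fun z => ?_
  simp [NormedSpace.exp_zero, sub_eq_add_neg, smul_add, add_comm]

theorem exists_gens (G : Subgroup (unitaryGroup (Fin N) ℂ)) :
    ∃ (n : ℕ) (u : Fin n → unitaryGroup (Fin N) ℂ) (A : Fin n → Mat N),
      (∀ i, u i ∈ G) ∧ (∀ i, A i ∈ LieAlg G) ∧
      comSub G = Submodule.span ℝ (Set.range fun i =>
        (u i : Mat N) * A i * (u i : Mat N)ᴴ - A i) := by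
  have hfg : (comSub G).FG := IsNoetherian.noetherian _
  obtain ⟨s', hs', hs2⟩ := (Submodule.fg_span_iff_fg_span_finset_subset _).1 hfg
  have hY : ∀ i : Fin s'.card, ∃ u ∈ G, ∃ A ∈ LieAlg G,
      ((s'.equivFin.symm i : s') : Mat N) = (u : Mat N) * A * (u : Mat N)ᴴ - A :=
    fun i => hs' (s'.equivFin.symm i).2
  choose u hu A hA hY using hY
  refine ⟨s'.card, u, A, hu, hA, ?_⟩
  have h1 : (Set.range fun i => (u i : Mat N) * A i * (u i : Mat N)ᴴ - A i) = (s' : Set (Mat N)) := by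
    ext x
    constructor
    · rintro ⟨i, rfl⟩
      dsimp only
      rw [← hY i]
      exact (s'.equivFin.symm i).2
    · intro hx
      refine ⟨s'.equivFin ⟨x, hx⟩, ?_⟩
      dsimp only
      rw [← hY, Equiv.symm_apply_apply]
  rw [h1, ← hs2]
  rfl

set_option backward.isDefEq.respectTransparency false in
theorem local_width (G : Subgroup (unitaryGroup (Fin N) ℂ))
    (hG : IsClosed (G : Set (unitaryGroup (Fin N) ℂ))) :
    ∃ (n : ℕ), ∃ O ∈ 𝓝 (1 : unitaryGroup (Fin N) ℂ), ∀ d ∈ DD G, d ∈ O →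
      ∃ l : List (unitaryGroup (Fin N) ℂ × unitaryGroup (Fin N) ℂ),
        l.length ≤ n ∧ (∀ q ∈ l, q.1 ∈ G ∧ q.2 ∈ G) ∧
          (l.map fun q => q.1 * q.2 * q.1⁻¹ * q.2⁻¹).prod = d := by
  letI : NormedAlgebra ℚ (Mat N) := NormedAlgebra.restrictScalars ℚ ℝ (Mat N)
  obtain ⟨n, u, A, hu, hA, hspan⟩ := exists_gens G
  -- the commutators
  choose a ha ha2 using hA
  set Y : Fin n → Mat N := fun i => (u i : Mat N) * A i * (u i : Mat N)ᴴ - A i with hYdef
  have hval : ∀ (i : Fin n) (s : ℝ),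
      ((u i * a i s * (u i)⁻¹ * (a i s)⁻¹ : unitaryGroup (Fin N) ℂ) : Mat N) =
      NormedSpace.exp (s • ((u i : Mat N) * A i * (u i : Mat N)ᴴ)) *
        NormedSpace.exp (s • (-(A i))) := by
    intro i s
    have hsA : (A i)ᴴ = -(A i) := skew_of_mem (G := G) fun t => ⟨a i t, ha i t, ha2 i t⟩
    have h1 : s • ((u i : Mat N) * A i * (u i : Mat N)ᴴ) =
        (u i : Mat N) * (s • A i) * (u i : Mat N)ᴴ := by simp
    have h2 : (s • A i)ᴴ = -(s • A i) := Pool.LatH472.CST1_skew s (A i) hsA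
    have h3 : NormedSpace.exp (s • (-(A i))) = ((a i s : Mat N))ᴴ := by
      rw [ha2, ← Matrix.exp_conjTranspose, h2, smul_neg]
    rw [h1, exp_conj_u, h3, ← ha2]
    rfl
  -- the map
  let g : (Fin n → ℝ) → unitaryGroup (Fin N) ℂ := fun s =>
    (List.ofFn fun i => u i * a i (s i) * (u i)⁻¹ * (a i (s i))⁻¹).prod
  have hgval : ∀ s, ((g s : unitaryGroup (Fin N) ℂ) : Mat N) = (List.ofFn fun i =>
      NormedSpace.exp (s i • ((u i : Mat N) * A i * (u i : Mat N)ᴴ)) *
        NormedSpace.exp (s i • (-(A i)))).prod := by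
    intro s
    have h1 : ((g s : unitaryGroup (Fin N) ℂ) : Mat N) =
        (unitaryGroup (Fin N) ℂ).subtype (g s) := rfl
    rw [h1, map_list_prod, List.map_ofFn]
    congr 1
    congr 1
    funext i
    exact hval i (s i)
  let prc : Mat N →L[ℝ] Mat N := LinearMap.toContinuousLinearMap (pr G)
  have hprc : ∀ Z, prc Z = pr G Z := fun Z => rfl
  let Ψ : (Fin n → ℝ) × Mat N → Mat N := fun p =>
    (g p.1 : Mat N) * NormedSpace.exp (prc p.2)
  let Ψ' : (Fin n → ℝ) × Mat N →L[ℝ] Mat N :=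
    (∑ i, ((ContinuousLinearMap.proj (R := ℝ) (φ := fun _ : Fin n => ℝ) i).comp
      (ContinuousLinearMap.fst ℝ (Fin n → ℝ) (Mat N))).smulRight (Y i)) +
      prc.comp (ContinuousLinearMap.snd ℝ (Fin n → ℝ) (Mat N))
  have hd : HasStrictFDerivAt Ψ Ψ' 0 := by
    have h1 := prod_deriv n (fun i (p : (Fin n → ℝ) × Mat N) =>
      NormedSpace.exp (p.1 i • ((u i : Mat N) * A i * (u i : Mat N)ᴴ)) *
        NormedSpace.exp (p.1 i • (-(A i))))
      (fun i => ((ContinuousLinearMap.proj (R := ℝ) (φ := fun _ : Fin n => ℝ) i).comp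
      (ContinuousLinearMap.fst ℝ (Fin n → ℝ) (Mat N))).smulRight (Y i))
      (fun i => com_deriv (u i : Mat N) ((u i : Mat N)ᴴ) (A i)
        (Matrix.mem_unitaryGroup_iff.1 (u i).2)
        ((ContinuousLinearMap.proj (R := ℝ) (φ := fun _ : Fin n => ℝ) i).comp
      (ContinuousLinearMap.fst ℝ (Fin n → ℝ) (Mat N))))
      (fun i => by simp [NormedSpace.exp_zero])
    obtain ⟨h1, h1'⟩ := h1
    have h2 : HasStrictFDerivAt (fun p : (Fin n → ℝ) × Mat N => NormedSpace.exp (prc p.2))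
        (prc.comp (ContinuousLinearMap.snd ℝ (Fin n → ℝ) (Mat N))) 0 := by
      have hE : HasStrictFDerivAt (NormedSpace.exp : Mat N → Mat N) (1 : Mat N →L[ℝ] Mat N)
          ((prc.comp (ContinuousLinearMap.snd ℝ (Fin n → ℝ) (Mat N))) 0) := by
        rw [map_zero]
        exact hasStrictFDerivAt_exp_zero
      exact hE.comp 0 (prc.comp (ContinuousLinearMap.snd ℝ (Fin n → ℝ) (Mat N))).hasStrictFDerivAt
    have h3 := h1.mul' h2
    have h4 : Ψ = fun p => (List.ofFn fun i => NormedSpace.exp (p.1 i • ((u i : Mat N) * A i *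
      (u i : Mat N)ᴴ)) * NormedSpace.exp (p.1 i • (-(A i)))).prod * NormedSpace.exp (prc p.2) := by
      funext p
      exact congrArg (fun M => M * NormedSpace.exp (prc p.2)) (hgval p.1)
    rw [h4]
    refine h3.congr_fderiv ?_
    rw [h1']
    refine ContinuousLinearMap.ext fun z => ?_
    simp [Ψ', NormedSpace.exp_zero, add_comm]
  have hsurj : Ψ'.range = ⊤ := by
    rw [eq_top_iff]
    intro X _
    have h1 : X - pr G X ∈ Submodule.span ℝ (Set.range Y) := by
      have := sub_pr_mem G X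
      rwa [hspan] at this
    obtain ⟨c, hc⟩ := (Submodule.mem_span_range_iff_exists_fun ℝ).1 h1
    refine ⟨(c, X), ?_⟩
    show Ψ' (c, X) = X
    simp only [Ψ', _root_.add_apply, _root_.sum_apply,
      ContinuousLinearMap.smulRight_apply, ContinuousLinearMap.comp_apply,
      ContinuousLinearMap.coe_fst', ContinuousLinearMap.coe_snd', ContinuousLinearMap.proj_apply]
    rw [hc, hprc, sub_add_cancel]
  have hmap := hd.map_nhds_eq_of_surj hsurj
  have hΨ0 : Ψ 0 = 1 := by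
    have : ((g 0 : unitaryGroup (Fin N) ℂ) : Mat N) = 1 := by
      rw [hgval]
      have : (List.ofFn fun i : Fin n =>
        NormedSpace.exp ((0 : Fin n → ℝ) i • ((u i : Mat N) * A i * (u i : Mat N)ᴴ)) *
        NormedSpace.exp ((0 : Fin n → ℝ) i • (-(A i)))).prod = 1 := by
        simp [NormedSpace.exp_zero]
      exact this
    show ((g 0 : unitaryGroup (Fin N) ℂ) : Mat N) * NormedSpace.exp (prc 0) = 1
    rw [this, map_zero, NormedSpace.exp_zero, one_mul]
  rw [hΨ0] at hmap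
  -- local injectivity of exp
  obtain ⟨V0, hV0, hinj⟩ := Pool.LatH472.TTL_strict (Fin N) (1 / 2) (by norm_num)
  have hinj' : ∀ X ∈ V0, ∀ X' ∈ V0, NormedSpace.exp X = NormedSpace.exp X' → X = X' := by
    intro X hX X' hX' he
    have h1 := hinj X hX X' hX'
    rw [he, sub_self, zero_sub, norm_neg] at h1
    have h2 : ‖X - X'‖ = 0 := by
      have := norm_nonneg (X - X')
      linarith
    exact sub_eq_zero.1 (norm_eq_zero.1 h2)
  obtain ⟨O1, hO1, hO1'⟩ := Pool.LatH472.CST2 Pool.LatH472.CST1 (Fin N) (DD G) (DD_closed G) V0 hV0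
  rw [nhds_subtype_eq_comap, mem_comap] at hO1
  obtain ⟨O2, hO2, hO2'⟩ := hO1
  have hV : {p : (Fin n → ℝ) × Mat N | prc p.2 ∈ V0 ∧ NormedSpace.exp (prc p.2) ∈ O2} ∈
      𝓝 (0 : (Fin n → ℝ) × Mat N) := by
    have hc1 : ContinuousAt (fun p : (Fin n → ℝ) × Mat N => prc p.2) 0 :=
      (prc.continuous.comp continuous_snd).continuousAt
    have hc2 : ContinuousAt (fun p : (Fin n → ℝ) × Mat N => NormedSpace.exp (prc p.2)) 0 :=
      (NormedSpace.exp_continuous.comp (prc.continuous.comp continuous_snd)).continuousAt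
    refine Filter.inter_mem (hc1 ?_) (hc2 ?_)
    · show V0 ∈ 𝓝 (prc (0 : (Fin n → ℝ) × Mat N).2)
      rw [Prod.snd_zero, map_zero]
      exact hV0
    · show O2 ∈ 𝓝 (NormedSpace.exp (prc (0 : (Fin n → ℝ) × Mat N).2))
      rw [Prod.snd_zero, map_zero, NormedSpace.exp_zero]
      exact hO2
  have hO3 : Ψ '' {p : (Fin n → ℝ) × Mat N | prc p.2 ∈ V0 ∧ NormedSpace.exp (prc p.2) ∈ O2} ∈
      𝓝 (1 : Mat N) := by
    rw [← hmap]
    exact image_mem_map hV
  have hgG : ∀ s, g s ∈ (⁅G, G⁆ : Subgroup (unitaryGroup (Fin N) ℂ)) := by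
    intro s
    refine Subgroup.list_prod_mem _ ?_
    intro x hx
    obtain ⟨i, rfl⟩ := (List.mem_ofFn' _ _).1 hx
    have := Subgroup.commutator_mem_commutator (hu i) (ha i (s i))
    rwa [commutatorElement_def] at this
  refine ⟨n, Subtype.val ⁻¹' (Ψ '' {p : (Fin n → ℝ) × Mat N | prc p.2 ∈ V0 ∧
    NormedSpace.exp (prc p.2) ∈ O2}), ?_, ?_⟩
  · exact continuous_subtype_val.continuousAt.preimage_mem_nhds hO3
  rintro d hd ⟨⟨s, Z⟩, ⟨hZ1, hZ2⟩, hdZ⟩
  dsimp only at hZ1 hZ2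
  have hdZ' : (g s : Mat N) * NormedSpace.exp (prc Z) = (d : Mat N) := hdZ
  -- the element g⁻¹ d
  have he : (((g s)⁻¹ * d : unitaryGroup (Fin N) ℂ) : Mat N) = NormedSpace.exp (prc Z) := by
    have h1 : (((g s)⁻¹ * d : unitaryGroup (Fin N) ℂ) : Mat N) =
      (((g s)⁻¹ : unitaryGroup (Fin N) ℂ) : Mat N) * (d : Mat N) := rfl
    have h2 : (((g s)⁻¹ : unitaryGroup (Fin N) ℂ) : Mat N) * (g s : Mat N) = 1 :=
      congrArg Subtype.val (inv_mul_cancel (g s))
    rw [h1, ← hdZ', ← Matrix.mul_assoc, h2, Matrix.one_mul]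
  have heD : (g s)⁻¹ * d ∈ DD G :=
    (DD G).mul_mem ((DD G).inv_mem (Subgroup.le_topologicalClosure _ (hgG s))) hd
  obtain ⟨X, hX1, hX2, hX3⟩ := hO1' _ heD (hO2' (by
    show (((g s)⁻¹ * d : unitaryGroup (Fin N) ℂ) : Mat N) ∈ O2
    rw [he]; exact hZ2))
  rw [he] at hX3
  have hXZ : X = prc Z := hinj' X hX2 _ hZ1 hX3
  have hXc : X ∈ comSub G := lie_DD G hG (mem_iff.2 hX1)
  have hXo : X ∈ B.orthogonal (comSub G) := by
    rw [hXZ, hprc]; exact pr_mem_orth G Z
  have hX0 : X = 0 := B_eq_zero (hXo X hXc)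
  have hdg : d = g s := by
    rw [← hX3, hX0, NormedSpace.exp_zero] at he
    have h5 : (g s)⁻¹ * d = 1 := Subtype.ext he
    exact (inv_mul_eq_one.1 h5).symm
  refine ⟨List.ofFn fun i => (u i, a i (s i)), ?_, ?_, ?_⟩
  · rw [List.length_ofFn]
  · intro q hq
    obtain ⟨i, rfl⟩ := (List.mem_ofFn' _ _).1 hq
    exact ⟨hu i, ha i (s i)⟩
  · rw [hdg, List.map_ofFn]
    rfl

end Pool.Agent.W342.EG
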